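import Mathlib

set_option autoImplicit false

namespace Pool.Agent.U241.Fano

open Finset

open scoped Classical

section Lat

variable {X Y Z : Type*}

/-- The permutation `F w ⁻¹ ∘ F z`. -/
def sg (F : Z → X ≃ Y) (z w : Z) : Equiv.Perm X := (F z).trans (F w).symm

variable (F : Z → X ≃ Y)

theorem sg_apply (z w : Z) (x : X) : sg F z w x = (F w).symm (F z x) := rfl

theorem sg_mul (u z w : Z) : sg F z w * sg F u z = sg F u w := by
  ext x; simp [sg]

theorem sg_self (z : Z) : sg F z z = 1 := by
  ext x; simp [sg]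

theorem sg_inv (z w : Z) : (sg F z w)⁻¹ = sg F w z := by
  rw [inv_eq_iff_mul_eq_one, sg_mul, sg_self]

/-- `F w ⁻¹ ∘ F z` is an involution (or trivial). -/
def adj (z w : Z) : Prop := sg F z w * sg F z w = 1

theorem adj_symm {z w : Z} (h : adj F z w) : adj F w z := by
  unfold adj at *
  rw [← sg_inv F z w, ← mul_inv_rev, h, inv_one]

theorem adj_comm' (z w : Z) : adj F z w ↔ adj F w z := ⟨adj_symm F, adj_symm F⟩

theorem comm_of {G : Type*} [Group G] {a b : G} (ha : a * a = 1) (hb : b * b = 1)
    (h : (a * b⁻¹) * (a * b⁻¹) = 1) : a * b = b * a := by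
  have hb' : b⁻¹ = b := inv_eq_of_mul_eq_one_right hb
  have ha' : a⁻¹ = a := inv_eq_of_mul_eq_one_right ha
  rw [hb'] at h
  have := inv_eq_of_mul_eq_one_right h
  rw [mul_inv_rev, ha', hb'] at this
  exact this.symm

variable [Fintype X] [Fintype Z]

/-- the main abstract theorem -/
theorem pow_two_of (hF : ∀ x y, ∃! z, F z x = y) {n : ℕ} (hX : Fintype.card X = n)
    (hZ : Fintype.card Z = n)
    (hK : 54 * ((univ : Finset (Z × Z)).filter fun t => ¬ adj F t.1 t.2).card < n ^ 2) :
    ∃ k, n = 2 ^ k := by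
  have hn : 0 < n := by
    rcases Nat.eq_zero_or_pos n with h | h
    · subst h; simp at hK
    · exact h
  have hZne : (univ : Finset Z).Nonempty := by
    rw [← card_pos, card_univ, hZ]; exact hn
  set K : Z → ℕ := fun z => (univ.filter fun w => ¬ adj F z w).card with hKdef
  have hsum : ((univ : Finset (Z × Z)).filter fun t => ¬ adj F t.1 t.2).card = ∑ z, K z := by
    rw [hKdef, card_filter, Fintype.sum_prod_type]
    refine sum_congr rfl fun z _ => ?_
    show _ = (univ.filter fun w => ¬ adj F z w).card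
    rw [card_filter]
  rw [hsum] at hK
  -- choose z0
  obtain ⟨z0, -, hz0⟩ := exists_min_image univ K hZne
  have hz0' : 54 * K z0 < n := by
    have h1 : n * K z0 ≤ ∑ z, K z := by
      calc n * K z0 = ∑ z : Z, K z0 := by simp [hZ]
        _ ≤ _ := sum_le_sum fun z _ => hz0 z (mem_univ _)
    by_contra h
    push Not at h
    nlinarith
  set N : Finset Z := univ.filter fun w => 12 * K w ≤ n ∧ adj F z0 w with hN
  set B : Finset Z := univ.filter fun w => n < 12 * K w with hB
  have hBc : 54 * B.card ≤ 12 * n := by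
    have h1 : B.card * n ≤ 12 * ∑ z, K z := by
      calc B.card * n = ∑ z ∈ B, n := by simp
        _ ≤ ∑ z ∈ B, 12 * K z := sum_le_sum fun z hz => (mem_filter.1 hz).2.le
        _ ≤ ∑ z, 12 * K z := sum_le_sum_of_subset (subset_univ _)
        _ = _ := by rw [mul_sum]
    have h2 : (54 * B.card) * n ≤ (12 * n) * n := by nlinarith
    exact Nat.le_of_mul_le_mul_right h2 hn
  have hNc : 4 * Nᶜ.card < n := by
    have h1 : Nᶜ ⊆ B ∪ univ.filter fun w => ¬ adj F z0 w := by
      intro w hw
      rw [mem_compl, hN, mem_filter, not_and, not_and_or] at hw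
      rw [mem_union, mem_filter, mem_filter]
      rcases hw (mem_univ _) with h | h
      · exact Or.inl ⟨mem_univ _, by omega⟩
      · exact Or.inr ⟨mem_univ _, h⟩
    have h2 : Nᶜ.card ≤ B.card + K z0 := (card_le_card h1).trans (card_union_le _ _)
    omega
  have hNN : 3 * n < 4 * N.card := by
    have := card_add_card_compl N
    rw [hZ] at this
    omega
  -- the permutations
  set p : Z → Equiv.Perm X := fun w => sg F z0 w with hp
  have hpu : ∀ x y, ∃! w, p w x = y := by
    intro x y
    obtain ⟨w, hw, hu⟩ := hF y (F z0 x)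
    refine ⟨w, ?_, fun w' hw' => hu w' ?_⟩
    · show (F w).symm (F z0 x) = y
      rw [← hw]; simp
    · have : (F w').symm (F z0 x) = y := hw'
      rw [← this]; simp
  have hinj : ∀ x, Function.Injective fun w => p w x := by
    intro x w w' h
    exact (hpu x (p w' x)).unique h rfl
  have hinj' : ∀ y, Function.Injective fun w => (p w)⁻¹ y := by
    intro y w w' h
    have h1 : (p w)⁻¹ y = (p w')⁻¹ y := h
    refine hinj ((p w)⁻¹ y) ?_
    show p w ((p w)⁻¹ y) = p w' ((p w)⁻¹ y)
    conv_rhs => rw [h1]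
    simp
  have hsq : ∀ w ∈ N, p w * p w = 1 := fun w hw => (mem_filter.1 hw).2.2
  have hcom : ∀ w ∈ N, ∀ w' ∈ N, adj F w w' → p w * p w' = p w' * p w := by
    intro w hw w' hw' h
    refine comm_of (hsq w hw) (hsq w' hw') ?_
    have h1 : p w * (p w')⁻¹ = sg F w' w := by
      rw [hp]; simp only; rw [sg_inv, sg_mul]
    rw [h1]
    exact adj_symm F h
  have hKN : ∀ w ∈ N, 12 * K w ≤ n := fun w hw => (mem_filter.1 hw).2.1
  -- Step 1
  have hclos : ∀ a ∈ N, ∀ b ∈ N, ∀ c ∈ N, ∀ x, p c x = p a (p b x) → p c = p a * p b := by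
    intro a ha b hb c hc x hx
    set τ : Equiv.Perm X := (p c)⁻¹ * (p a * p b) with hτ
    set M : Finset Z := N.filter fun s => adj F a s ∧ adj F b s ∧ adj F c s with hM
    have hMc : n < 2 * M.card := by
      have h1 : N ⊆ M ∪ ((univ.filter fun w => ¬ adj F a w) ∪
          ((univ.filter fun w => ¬ adj F b w) ∪ (univ.filter fun w => ¬ adj F c w))) := by
        intro s hs
        simp only [hM, mem_union, mem_filter, mem_univ, true_and]
        tauto
      have h2 := (card_le_card h1).trans (card_union_le _ _)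
      have h3 : ((univ.filter fun w => ¬ adj F a w) ∪
          ((univ.filter fun w => ¬ adj F b w) ∪ (univ.filter fun w => ¬ adj F c w))).card
            ≤ K a + (K b + K c) :=
        (card_union_le _ _).trans (Nat.add_le_add_left (card_union_le _ _) _)
      have h4 := hKN a ha
      have h5 := hKN b hb
      have h6 := hKN c hc
      omega
    have hτc : ∀ s ∈ M, τ * p s = p s * τ := by
      intro s hs
      obtain ⟨hsN, has, hbs, hcs⟩ := mem_filter.1 hs
      have c1 : Commute (p a) (p s) := hcom a ha s hsN has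
      have c2 : Commute (p b) (p s) := hcom b hb s hsN hbs
      have c3 : Commute (p c) (p s) := hcom c hc s hsN hcs
      exact (c3.inv_left.mul_left (c1.mul_left c2))
    have hτx : τ x = x := by
      show (p c)⁻¹ (p a (p b x)) = x
      rw [← hx]; simp
    have hτ1 : τ = 1 := by
      ext y
      show τ y = y
      have hne : ((M.image fun s => p s x) ∩ (M.image fun s => (p s)⁻¹ y)).Nonempty := by
        rw [← card_pos]
        have h1 := card_union_add_card_inter (M.image fun s => p s x) (M.image fun s => (p s)⁻¹ y)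
        rw [card_image_of_injective _ (hinj x), card_image_of_injective _ (hinj' y)] at h1
        have h2 : ((M.image fun s => p s x) ∪ (M.image fun s => (p s)⁻¹ y)).card ≤ n := by
          rw [← hX]; exact card_le_univ _
        omega
      obtain ⟨u, hu⟩ := hne
      rw [mem_inter, mem_image, mem_image] at hu
      obtain ⟨⟨s, hs, hsu⟩, ⟨t, ht, htu⟩⟩ := hu
      have hτu : τ u = u := by
        rw [← hsu]
        show (τ * p s) x = p s x
        rw [hτc s hs]
        show p s (τ x) = p s x
        rw [hτx]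
      have hyu : y = p t u := by rw [← htu]; simp
      rw [hyu]
      show (τ * p t) u = p t u
      rw [hτc t ht]
      show p t (τ u) = p t u
      rw [hτu]
    have := hτ1
    rw [hτ, inv_mul_eq_one] at this
    exact this
  have hXne : Nonempty X := by
    rw [← Fintype.card_pos_iff, hX]; exact hn
  obtain ⟨x0⟩ := hXne
  -- Step 2+3
  have hcomm : ∀ a ∈ N, ∀ a' ∈ N, p a * p a' = p a' * p a := by
    intro a ha a' ha'
    choose c hc using fun b => (hpu x0 (p a' (p b x0))).exists
    have hcinj : Function.Injective c := by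
      intro b b' h
      have h1 := hc b
      rw [h, hc b'] at h1
      exact hinj x0 ((p a').injective h1.symm)
    have hex : ∃ b, b ∈ N ∧ adj F a b ∧ c b ∈ N ∧ adj F a (c b) := by
      by_contra hcon
      push Not at hcon
      have h1 : (univ : Finset Z) ⊆ (Nᶜ ∪ univ.filter fun w => ¬ adj F a w) ∪
          ((Nᶜ ∪ univ.filter fun w => ¬ adj F a w).preimage c hcinj.injOn) := by
        intro b _
        simp only [mem_union, mem_compl, mem_filter, mem_univ, true_and, mem_preimage]
        have := hcon b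
        tauto
      have h2 := (card_le_card h1).trans (card_union_le _ _)
      have h3 : (Nᶜ ∪ univ.filter fun w => ¬ adj F a w).card ≤ Nᶜ.card + K a := card_union_le _ _
      have h4 : ((Nᶜ ∪ univ.filter fun w => ¬ adj F a w).preimage c hcinj.injOn).card
          ≤ (Nᶜ ∪ univ.filter fun w => ¬ adj F a w).card := by
        rw [← card_image_of_injective _ hcinj]
        exact card_le_card (fun y hy => by
          obtain ⟨z, hz, rfl⟩ := mem_image.1 hy
          exact mem_preimage.1 hz)
      rw [card_univ, hZ] at h2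
      have h5 := hKN a ha
      omega
    obtain ⟨b, hb, hab, hcb, hacb⟩ := hex
    have h1 := hclos a' ha' b hb (c b) hcb x0 (hc b)
    have c1 : Commute (p a) (p b) := hcom a ha b hb hab
    have c2 : Commute (p a) (p (c b)) := hcom a ha (c b) hcb hacb
    have h2 : p a' = p (c b) * (p b)⁻¹ := by rw [h1]; group
    rw [h2]
    exact (c2.mul_right c1.inv_right)
  -- Step 4
  have htr : ∀ x y, ∃ a ∈ N, ∃ b ∈ N, (p a * p b) x = y := by
    intro x y
    have hne : ((N.image fun s => p s x) ∩ (N.image fun s => (p s)⁻¹ y)).Nonempty := by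
      rw [← card_pos]
      have h1 := card_union_add_card_inter (N.image fun s => p s x) (N.image fun s => (p s)⁻¹ y)
      rw [card_image_of_injective _ (hinj x), card_image_of_injective _ (hinj' y)] at h1
      have h2 : ((N.image fun s => p s x) ∪ (N.image fun s => (p s)⁻¹ y)).card ≤ n := by
        rw [← hX]; exact card_le_univ _
      omega
    obtain ⟨u, hu⟩ := hne
    rw [mem_inter, mem_image, mem_image] at hu
    obtain ⟨⟨s, hs, hsu⟩, ⟨t, ht, htu⟩⟩ := hu
    refine ⟨t, ht, s, hs, ?_⟩
    show p t (p s x) = y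
    rw [hsu, ← htu]; simp
  let C : Subgroup (Equiv.Perm X) := Subgroup.centralizer (p '' (N : Set Z))
  have hmem : ∀ a ∈ N, p a ∈ C := by
    intro a ha
    rw [Subgroup.mem_centralizer_iff]
    rintro _ ⟨b, hb, rfl⟩
    exact hcomm b hb a ha
  have hCc : ∀ τ ∈ C, ∀ a ∈ N, τ * p a = p a * τ := by
    intro τ hτ a ha
    exact ((Subgroup.mem_centralizer_iff.1 hτ) (p a) ⟨a, ha, rfl⟩).symm
  have hsemi : ∀ τ ∈ C, ∀ x, τ x = x → τ = 1 := by
    intro τ hτ x hx
    ext y
    show τ y = y
    obtain ⟨a, ha, b, hb, rfl⟩ := htr x y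
    have h1 : τ * (p a * p b) = (p a * p b) * τ := by
      rw [← mul_assoc, hCc τ hτ a ha, mul_assoc, hCc τ hτ b hb, mul_assoc]
    show (τ * (p a * p b)) x = _
    rw [h1]
    show (p a * p b) (τ x) = _
    rw [hx]
  have hC2 : ∀ τ ∈ C, τ ^ 2 = 1 := by
    intro τ hτ
    obtain ⟨a, ha, b, hb, hab⟩ := htr x0 (τ x0)
    have h1 : τ⁻¹ * (p a * p b) = 1 := by
      refine hsemi _ (C.mul_mem (C.inv_mem hτ) (C.mul_mem (hmem a ha) (hmem b hb))) x0 ?_
      show τ⁻¹ ((p a * p b) x0) = x0
      rw [hab]; simp
    rw [inv_mul_eq_one] at h1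
    rw [h1, pow_two]
    calc p a * p b * (p a * p b) = p a * (p b * p a) * p b := by group
      _ = p a * (p a * p b) * p b := by rw [hcomm b hb a ha]
      _ = (p a * p a) * (p b * p b) := by group
      _ = 1 := by rw [hsq a ha, hsq b hb, one_mul]
  have hbij : Function.Bijective fun τ : C => (τ : Equiv.Perm X) x0 := by
    constructor
    · rintro ⟨τ, hτ⟩ ⟨τ', hτ'⟩ h
      have h0 : τ x0 = τ' x0 := h
      have h1 : τ⁻¹ * τ' = 1 := by
        refine hsemi _ (C.mul_mem (C.inv_mem hτ) hτ') x0 ?_
        show τ⁻¹ (τ' x0) = x0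
        rw [← h0]; simp
      rw [inv_mul_eq_one] at h1
      exact Subtype.ext h1
    · intro y
      obtain ⟨a, ha, b, hb, hab⟩ := htr x0 y
      exact ⟨⟨p a * p b, C.mul_mem (hmem a ha) (hmem b hb)⟩, hab⟩
  have hcard : Nat.card C = n := by
    rw [Nat.card_congr (Equiv.ofBijective _ hbij), Nat.card_eq_fintype_card, hX]
  have : Fact (Nat.Prime 2) := ⟨Nat.prime_two⟩
  have hpg : IsPGroup 2 C := by
    rintro ⟨τ, hτ⟩
    exact ⟨1, Subtype.ext (by simpa using hC2 τ hτ)⟩
  obtain ⟨k, hk⟩ := (IsPGroup.iff_card).1 hpg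
  exact ⟨k, by rw [← hcard, hk]⟩

end Lat

end Pool.Agent.U241.Fano
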