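import Mathlib
import Pool.Agent.U241.FanoLat

set_option autoImplicit false

/-!
# Latin squares in which every cell is in many intercalates
-/

namespace Pool.Agent.U241.Fano

open Finset

open scoped Classical

section Loc

variable {X Y Z : Type*} (F : Z → X ≃ Y)

/-- the four intercalates through a fixed cell -/
theorem step {a b u : Z} {x0 x1 : X} (h1 : x1 = sg F a b x0) (h2 : sg F a b x1 ≠ x0)
    (hA : sg F a u (sg F a u x0) = x0) (hB : sg F b u (sg F b u x1) = x1)
    (hC : sg F a u (sg F a u x1) = x1) (hD : sg F b u (sg F b u x0) = x0) :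
    sg F a b (sg F a b (sg F a u x0)) ≠ sg F a u x0 := by
  intro hcon
  have key : ∀ (c d : Z) (x y : X), sg F c d x = y ↔ F d y = F c x := by
    intro c d x y
    rw [sg_apply, Equiv.symm_apply_eq, eq_comm]
  set t := sg F a u x0 with ht
  set t' := sg F a b t with ht'
  have e1 : F b t' = F a t := (key a b t t').1 ht'.symm
  have e2 : F b t = F a t' := (key a b t' t).1 hcon
  have e3 : F u t = F a x0 := (key a u x0 t).1 ht.symm
  have e4 : F b x1 = F a x0 := (key a b x0 x1).1 h1.symm
  have e5 : F u x0 = F a t := (key a u t x0).1 hA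
  have e6 : sg F b u x1 = t := (key b u x1 t).2 (by rw [e3, e4])
  rw [e6] at hB
  have e7 : F u x1 = F b t := (key b u t x1).1 hB
  have e8 : sg F a u t' = x1 := (key a u t' x1).2 (by rw [e7, e2])
  have e9 : sg F a u x1 = t' := (sg F a u).injective (by rw [hC, e8])
  have e10 : F u t' = F a x1 := (key a u x1 t').1 e9
  have e11 : sg F b u t' = x0 := (key b u t' x0).2 (by rw [e5, e1])
  have e12 : sg F b u x0 = t' := (sg F b u).injective (by rw [hD, e11])
  have e13 : F u t' = F b x0 := (key b u x0 t').1 e12
  exact h2 ((key a b x1 x0).2 (by rw [← e13, e10]))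

variable [Fintype X] [Fintype Z]

/-- if all vertices of the graph of involutions have degree more than `7 n / 8` -/
theorem all_adj (hF : ∀ x y, ∃! z, F z x = y) {n : ℕ} (hX : Fintype.card X = n)
    (hZ : Fintype.card Z = n) (hn : 0 < n)
    (hK : ∀ z, 8 * (univ.filter fun w => ¬ adj F z w).card < n) :
    (∃ k, n = 2 ^ k) ∧ ∀ z w, adj F z w := by
  have hZne : Nonempty Z := by
    rw [← Fintype.card_pos_iff, hZ]; exact hn
  obtain ⟨z0⟩ := hZne
  set K : Z → ℕ := fun z => (univ.filter fun w => ¬ adj F z w).card with hKdef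
  have hKN : ∀ z, 8 * K z < n := hK
  set N : Finset Z := univ.filter fun w => adj F z0 w with hN
  have hNc : Nᶜ.card = K z0 := by
    rw [hN, compl_filter]
  have hNN : N.card + K z0 = n := by
    rw [← hNc, card_add_card_compl, hZ]
  -- the permutations
  set p : Z → Equiv.Perm X := fun w => sg F z0 w with hp
  have hpu : ∀ x y, ∃! w, p w x = y := by
    intro x y
    obtain ⟨w, hw, hu⟩ := hF y (F z0 x)
    refine ⟨w, ?_, fun w' hw' => hu w' ?_⟩
    · show (F w).symm (F z0 x) = y
      rw [← hw]; simp
    · have : (F w').symm (F z0 x) = y := hw'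
      rw [← this]; simp
  have hinj : ∀ x, Function.Injective fun w => p w x := by
    intro x w w' h
    exact (hpu x (p w' x)).unique h rfl
  have hinj' : ∀ y, Function.Injective fun w => (p w)⁻¹ y := by
    intro y w w' h
    have h1 : (p w)⁻¹ y = (p w')⁻¹ y := h
    refine hinj ((p w)⁻¹ y) ?_
    show p w ((p w)⁻¹ y) = p w' ((p w)⁻¹ y)
    conv_rhs => rw [h1]
    simp
  have hsq : ∀ w ∈ N, p w * p w = 1 := fun w hw => (mem_filter.1 hw).2
  have hcom : ∀ w ∈ N, ∀ w' ∈ N, adj F w w' → p w * p w' = p w' * p w := by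
    intro w hw w' hw' h
    refine comm_of (hsq w hw) (hsq w' hw') ?_
    have h1 : p w * (p w')⁻¹ = sg F w' w := by
      rw [hp]; simp only; rw [sg_inv, sg_mul]
    rw [h1]
    exact adj_symm F h
  -- Step 1
  have hclos : ∀ a ∈ N, ∀ b ∈ N, ∀ c ∈ N, ∀ x, p c x = p a (p b x) → p c = p a * p b := by
    intro a ha b hb c hc x hx
    set τ : Equiv.Perm X := (p c)⁻¹ * (p a * p b) with hτ
    set M : Finset Z := N.filter fun s => adj F a s ∧ adj F b s ∧ adj F c s with hM
    have hMc : n < 2 * M.card := by
      have h1 : N ⊆ M ∪ ((univ.filter fun w => ¬ adj F a w) ∪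
          ((univ.filter fun w => ¬ adj F b w) ∪ (univ.filter fun w => ¬ adj F c w))) := by
        intro s hs
        simp only [hM, mem_union, mem_filter, mem_univ, true_and]
        tauto
      have h2 := (card_le_card h1).trans (card_union_le _ _)
      have h3 : ((univ.filter fun w => ¬ adj F a w) ∪
          ((univ.filter fun w => ¬ adj F b w) ∪ (univ.filter fun w => ¬ adj F c w))).card
            ≤ K a + (K b + K c) :=
        (card_union_le _ _).trans (Nat.add_le_add_left (card_union_le _ _) _)
      have h4 := hKN a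
      have h5 := hKN b
      have h6 := hKN c
      have h7 := hKN z0
      omega
    have hτc : ∀ s ∈ M, τ * p s = p s * τ := by
      intro s hs
      obtain ⟨hsN, has, hbs, hcs⟩ := mem_filter.1 hs
      have c1 : Commute (p a) (p s) := hcom a ha s hsN has
      have c2 : Commute (p b) (p s) := hcom b hb s hsN hbs
      have c3 : Commute (p c) (p s) := hcom c hc s hsN hcs
      exact (c3.inv_left.mul_left (c1.mul_left c2))
    have hτx : τ x = x := by
      show (p c)⁻¹ (p a (p b x)) = x
      rw [← hx]; simp
    have hτ1 : τ = 1 := by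
      ext y
      show τ y = y
      have hne : ((M.image fun s => p s x) ∩ (M.image fun s => (p s)⁻¹ y)).Nonempty := by
        rw [← card_pos]
        have h1 := card_union_add_card_inter (M.image fun s => p s x) (M.image fun s => (p s)⁻¹ y)
        rw [card_image_of_injective _ (hinj x), card_image_of_injective _ (hinj' y)] at h1
        have h2 : ((M.image fun s => p s x) ∪ (M.image fun s => (p s)⁻¹ y)).card ≤ n := by
          rw [← hX]; exact card_le_univ _
        omega
      obtain ⟨u, hu⟩ := hne
      rw [mem_inter, mem_image, mem_image] at hu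
      obtain ⟨⟨s, hs, hsu⟩, ⟨t, ht, htu⟩⟩ := hu
      have hτu : τ u = u := by
        rw [← hsu]
        show (τ * p s) x = p s x
        rw [hτc s hs]
        show p s (τ x) = p s x
        rw [hτx]
      have hyu : y = p t u := by rw [← htu]; simp
      rw [hyu]
      show (τ * p t) u = p t u
      rw [hτc t ht]
      show p t (τ u) = p t u
      rw [hτu]
    have := hτ1
    rw [hτ, inv_mul_eq_one] at this
    exact this
  have hXne : Nonempty X := by
    rw [← Fintype.card_pos_iff, hX]; exact hn
  obtain ⟨x0⟩ := hXne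
  -- Step 2+3
  have hcomm : ∀ a ∈ N, ∀ a' ∈ N, p a * p a' = p a' * p a := by
    intro a ha a' ha'
    choose c hc using fun b => (hpu x0 (p a' (p b x0))).exists
    have hcinj : Function.Injective c := by
      intro b b' h
      have h1 := hc b
      rw [h, hc b'] at h1
      exact hinj x0 ((p a').injective h1.symm)
    have hex : ∃ b, b ∈ N ∧ adj F a b ∧ c b ∈ N ∧ adj F a (c b) := by
      by_contra hcon
      push Not at hcon
      have h1 : (univ : Finset Z) ⊆ (Nᶜ ∪ univ.filter fun w => ¬ adj F a w) ∪
          ((Nᶜ ∪ univ.filter fun w => ¬ adj F a w).preimage c hcinj.injOn) := by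
        intro b _
        simp only [mem_union, mem_compl, mem_filter, mem_univ, true_and, mem_preimage]
        have := hcon b
        tauto
      have h2 := (card_le_card h1).trans (card_union_le _ _)
      have h3 : (Nᶜ ∪ univ.filter fun w => ¬ adj F a w).card ≤ Nᶜ.card + K a := card_union_le _ _
      have h4 : ((Nᶜ ∪ univ.filter fun w => ¬ adj F a w).preimage c hcinj.injOn).card
          ≤ (Nᶜ ∪ univ.filter fun w => ¬ adj F a w).card := by
        rw [← card_image_of_injective _ hcinj]
        exact card_le_card (fun y hy => by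
          obtain ⟨z, hz, rfl⟩ := mem_image.1 hy
          exact mem_preimage.1 hz)
      rw [card_univ, hZ] at h2
      have h5 := hKN a
      have h6 := hKN z0
      omega
    obtain ⟨b, hb, hab, hcb, hacb⟩ := hex
    have h1 := hclos a' ha' b hb (c b) hcb x0 (hc b)
    have c1 : Commute (p a) (p b) := hcom a ha b hb hab
    have c2 : Commute (p a) (p (c b)) := hcom a ha (c b) hcb hacb
    have h2 : p a' = p (c b) * (p b)⁻¹ := by rw [h1]; group
    rw [h2]
    exact (c2.mul_right c1.inv_right)
  -- Step 4
  have htr : ∀ x y, ∃ a ∈ N, ∃ b ∈ N, (p a * p b) x = y := by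
    intro x y
    have hne : ((N.image fun s => p s x) ∩ (N.image fun s => (p s)⁻¹ y)).Nonempty := by
      rw [← card_pos]
      have h1 := card_union_add_card_inter (N.image fun s => p s x) (N.image fun s => (p s)⁻¹ y)
      rw [card_image_of_injective _ (hinj x), card_image_of_injective _ (hinj' y)] at h1
      have h2 : ((N.image fun s => p s x) ∪ (N.image fun s => (p s)⁻¹ y)).card ≤ n := by
        rw [← hX]; exact card_le_univ _
      have h6 := hKN z0
      omega
    obtain ⟨u, hu⟩ := hne
    rw [mem_inter, mem_image, mem_image] at hu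
    obtain ⟨⟨s, hs, hsu⟩, ⟨t, ht, htu⟩⟩ := hu
    refine ⟨t, ht, s, hs, ?_⟩
    show p t (p s x) = y
    rw [hsu, ← htu]; simp
  let C : Subgroup (Equiv.Perm X) := Subgroup.centralizer (p '' (N : Set Z))
  have hmem : ∀ a ∈ N, p a ∈ C := by
    intro a ha
    rw [Subgroup.mem_centralizer_iff]
    rintro _ ⟨b, hb, rfl⟩
    exact hcomm b hb a ha
  have hCc : ∀ τ ∈ C, ∀ a ∈ N, τ * p a = p a * τ := by
    intro τ hτ a ha
    exact ((Subgroup.mem_centralizer_iff.1 hτ) (p a) ⟨a, ha, rfl⟩).symm
  have hsemi : ∀ τ ∈ C, ∀ x, τ x = x → τ = 1 := by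
    intro τ hτ x hx
    ext y
    show τ y = y
    obtain ⟨a, ha, b, hb, rfl⟩ := htr x y
    have h1 : τ * (p a * p b) = (p a * p b) * τ := by
      rw [← mul_assoc, hCc τ hτ a ha, mul_assoc, hCc τ hτ b hb, mul_assoc]
    show (τ * (p a * p b)) x = _
    rw [h1]
    show (p a * p b) (τ x) = _
    rw [hx]
  have hC2 : ∀ τ ∈ C, τ ^ 2 = 1 := by
    intro τ hτ
    obtain ⟨a, ha, b, hb, hab⟩ := htr x0 (τ x0)
    have h1 : τ⁻¹ * (p a * p b) = 1 := by
      refine hsemi _ (C.mul_mem (C.inv_mem hτ) (C.mul_mem (hmem a ha) (hmem b hb))) x0 ?_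
      show τ⁻¹ ((p a * p b) x0) = x0
      rw [hab]; simp
    rw [inv_mul_eq_one] at h1
    rw [h1, pow_two]
    calc p a * p b * (p a * p b) = p a * (p b * p a) * p b := by group
      _ = p a * (p a * p b) * p b := by rw [hcomm b hb a ha]
      _ = (p a * p a) * (p b * p b) := by group
      _ = 1 := by rw [hsq a ha, hsq b hb, one_mul]
  have hbij : Function.Bijective fun τ : C => (τ : Equiv.Perm X) x0 := by
    constructor
    · rintro ⟨τ, hτ⟩ ⟨τ', hτ'⟩ h
      have h0 : τ x0 = τ' x0 := h
      have h1 : τ⁻¹ * τ' = 1 := by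
        refine hsemi _ (C.mul_mem (C.inv_mem hτ) hτ') x0 ?_
        show τ⁻¹ (τ' x0) = x0
        rw [← h0]; simp
      rw [inv_mul_eq_one] at h1
      exact Subtype.ext h1
    · intro y
      obtain ⟨a, ha, b, hb, hab⟩ := htr x0 y
      exact ⟨⟨p a * p b, C.mul_mem (hmem a ha) (hmem b hb)⟩, hab⟩
  have hcard : Nat.card C = n := by
    rw [Nat.card_congr (Equiv.ofBijective _ hbij), Nat.card_eq_fintype_card, hX]
  -- Step 5
  have hall : ∀ w0, p w0 ∈ C := by
    intro w0
    rw [Subgroup.mem_centralizer_iff]
    rintro _ ⟨a, ha, rfl⟩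
    set U : Finset Z := N.filter fun u => adj F w0 u with hU
    have hUc : n < 2 * U.card := by
      have h1 : N ⊆ U ∪ (univ.filter fun w => ¬ adj F w0 w) := by
        intro s hs
        simp only [hU, mem_union, mem_filter, mem_univ, true_and]
        tauto
      have h2 := (card_le_card h1).trans (card_union_le _ _)
      have h4 : (univ.filter fun w => ¬ adj F w0 w).card = K w0 := rfl
      have h5 := hKN w0
      have h6 := hKN z0
      omega
    have hinj3 : Function.Injective fun s => p a (p s x0) :=
      fun s t h => hinj x0 ((p a).injective h)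
    have hne : ((U.image fun s => p s x0) ∩ (U.image fun s => p a (p s x0))).Nonempty := by
      rw [← card_pos]
      have h1 := card_union_add_card_inter (U.image fun s => p s x0)
        (U.image fun s => p a (p s x0))
      rw [card_image_of_injective _ (hinj x0),
        card_image_of_injective _ hinj3] at h1
      have h2 : ((U.image fun s => p s x0) ∪ (U.image fun s => p a (p s x0))).card ≤ n := by
        rw [← hX]; exact card_le_univ _
      omega
    obtain ⟨x, hx⟩ := hne
    rw [mem_inter, mem_image, mem_image] at hx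
    obtain ⟨⟨s, hs, hsx⟩, ⟨t, ht, htx⟩⟩ := hx
    obtain ⟨hsN, hs1⟩ := mem_filter.1 hs
    obtain ⟨htN, ht1⟩ := mem_filter.1 ht
    have e1 : (p s)⁻¹ * (p a * p t) = 1 := by
      refine hsemi _ (C.mul_mem (C.inv_mem (hmem s hsN)) (C.mul_mem (hmem a ha) (hmem t htN))) x0 ?_
      show (p s)⁻¹ (p a (p t x0)) = x0
      rw [htx, ← hsx]; simp
    rw [inv_mul_eq_one] at e1
    have hu : ∀ u ∈ N, adj F w0 u → p u * p w0 * p u = (p w0)⁻¹ := by
      intro u huN hu
      have h1 : sg F w0 u = p u * (p w0)⁻¹ := by
        rw [hp]; simp only; rw [sg_inv, sg_mul]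
      have h2 : (p u * (p w0)⁻¹) * (p u * (p w0)⁻¹) = 1 := by
        rw [← h1]; exact hu
      have h3 : p u * (p w0)⁻¹ * p u = p w0 := by
        have : p u * (p w0)⁻¹ * p u * (p w0)⁻¹ = 1 := by rw [mul_assoc, h2]
        rwa [mul_inv_eq_one] at this
      have h4 := congrArg (fun g => g⁻¹) h3
      simp only [mul_inv_rev, inv_inv] at h4
      have h5 : (p u)⁻¹ = p u := inv_eq_of_mul_eq_one_right (hsq u huN)
      rw [h5] at h4
      rw [mul_assoc]
      exact h4
    have h1 := hu s hsN hs1
    have h2 := hu t htN ht1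
    have hs2 := hsq s hsN
    have ht2 := hsq t htN
    have e2 : p a = p s * p t := by
      rw [e1, mul_assoc, ht2, mul_one]
    rw [e2]
    have e3 : p t * p w0 * p t = p s * p w0 * p s := by rw [h1, h2]
    have e4 : p s * p t * p w0 * p t * p s = p w0 := by
      calc p s * p t * p w0 * p t * p s = p s * (p t * p w0 * p t) * p s := by group
        _ = p s * (p s * p w0 * p s) * p s := by rw [e3]
        _ = (p s * p s) * p w0 * (p s * p s) := by group
        _ = p w0 := by rw [hs2]; simp
    calc p s * p t * p w0 = p s * p t * p w0 * p t * p s * (p s * p t) := by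
          have : p s * p t * p w0 * p t * p s * (p s * p t)
              = p s * p t * p w0 * (p t * ((p s * p s) * p t)) := by group
          rw [this, hs2, one_mul, ht2, mul_one]
      _ = p w0 * (p s * p t) := by rw [e4]
  refine ⟨?_, ?_⟩
  · have : Fact (Nat.Prime 2) := ⟨Nat.prime_two⟩
    have hpg : IsPGroup 2 C := by
      rintro ⟨τ, hτ⟩
      exact ⟨1, Subtype.ext (by simpa using hC2 τ hτ)⟩
    obtain ⟨k, hk⟩ := (IsPGroup.iff_card).1 hpg
    exact ⟨k, by rw [← hcard, hk]⟩
  · intro z w
    have h1 : sg F z w = p w * (p z)⁻¹ := by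
      rw [hp]; simp only; rw [sg_inv, sg_mul]
    unfold adj
    rw [h1, ← pow_two]
    exact hC2 _ (C.mul_mem (hall w) (C.inv_mem (hall z)))

/-- If for every `z` and `x` there are fewer than `n / 12` many `w` for which the permutation
`F w ⁻¹ F z` is not an involution at `x`, then there are none. -/
theorem sup_gap (hF : ∀ x y, ∃! z, F z x = y) {n β : ℕ} (hX : Fintype.card X = n)
    (hZ : Fintype.card Z = n) (hβn : 12 * β < n)
    (hβ : ∀ z x, (univ.filter fun w => sg F z w (sg F z w x) ≠ x).card ≤ β) :
    (∃ k, n = 2 ^ k) ∧ ∀ z w x, sg F z w (sg F z w x) = x := by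
  have hn : 0 < n := by omega
  have hinj : ∀ z x, Function.Injective fun w => sg F z w x := by
    intro z x w w' h
    have h1 : (F w).symm (F z x) = (F w').symm (F z x) := h
    refine (hF ((F w').symm (F z x)) (F z x)).unique ?_ ?_
    · rw [← h1]; simp
    · simp
  -- the number of bad columns of a bad pair of rows
  have hD : ∀ a b, ¬ adj F a b → n ≤ (univ.filter fun x => sg F a b (sg F a b x) ≠ x).card + 4 * β := by
    intro a b hab
    have h1 : ∃ x, sg F a b (sg F a b x) ≠ x := by
      by_contra hcon
      push Not at hcon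
      exact hab (Equiv.ext fun x => hcon x)
    obtain ⟨x0, hx0⟩ := h1
    set x1 := sg F a b x0 with hx1
    set S : Finset Z := univ.filter fun u => sg F a u (sg F a u x0) = x0 ∧
      sg F b u (sg F b u x1) = x1 ∧ sg F a u (sg F a u x1) = x1 ∧ sg F b u (sg F b u x0) = x0
      with hS
    have h2 : (univ : Finset Z) ⊆ S ∪ ((univ.filter fun w => sg F a w (sg F a w x0) ≠ x0) ∪
        ((univ.filter fun w => sg F b w (sg F b w x1) ≠ x1) ∪
        ((univ.filter fun w => sg F a w (sg F a w x1) ≠ x1) ∪
        (univ.filter fun w => sg F b w (sg F b w x0) ≠ x0)))) := by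
      intro u _
      simp only [hS, mem_union, mem_filter, mem_univ, true_and]
      tauto
    have h3 := (card_le_card h2).trans (card_union_le _ _)
    rw [card_univ, hZ] at h3
    have h4 := card_union_le (univ.filter fun w => sg F a w (sg F a w x0) ≠ x0)
      ((univ.filter fun w => sg F b w (sg F b w x1) ≠ x1) ∪
        ((univ.filter fun w => sg F a w (sg F a w x1) ≠ x1) ∪
        (univ.filter fun w => sg F b w (sg F b w x0) ≠ x0)))
    have h5 := card_union_le (univ.filter fun w => sg F b w (sg F b w x1) ≠ x1)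
        ((univ.filter fun w => sg F a w (sg F a w x1) ≠ x1) ∪
        (univ.filter fun w => sg F b w (sg F b w x0) ≠ x0))
    have h6 := card_union_le (univ.filter fun w => sg F a w (sg F a w x1) ≠ x1)
        (univ.filter fun w => sg F b w (sg F b w x0) ≠ x0)
    have g1 := hβ a x0
    have g2 := hβ b x1
    have g3 := hβ a x1
    have g4 := hβ b x0
    have h7 : S.card ≤ (univ.filter fun x => sg F a b (sg F a b x) ≠ x).card := by
      refine card_le_card_of_injOn (fun u => sg F a u x0) ?_ (hinj a x0).injOn
      intro u hu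
      rw [mem_coe, hS, mem_filter] at hu
      rw [mem_coe, mem_filter]
      exact ⟨mem_univ _, step F hx1 hx0 hu.2.1 hu.2.2.1 hu.2.2.2.1 hu.2.2.2.2⟩
    omega
  have hK : ∀ z, 8 * (univ.filter fun w => ¬ adj F z w).card < n := by
    intro z
    set K := (univ.filter fun w => ¬ adj F z w).card with hKd
    have h1 : K * (n - 4 * β) ≤ ∑ w, (univ.filter fun x => sg F z w (sg F z w x) ≠ x).card := by
      calc K * (n - 4 * β) = ∑ w ∈ univ.filter (fun w => ¬ adj F z w), (n - 4 * β) := by
            rw [sum_const, smul_eq_mul]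
        _ ≤ ∑ w ∈ univ.filter (fun w => ¬ adj F z w),
            (univ.filter fun x => sg F z w (sg F z w x) ≠ x).card := by
            refine sum_le_sum fun w hw => ?_
            have := hD z w (mem_filter.1 hw).2
            omega
        _ ≤ _ := sum_le_sum_of_subset (subset_univ _)
    have h2 : ∑ w, (univ.filter fun x => sg F z w (sg F z w x) ≠ x).card
        = ∑ x, (univ.filter fun w => sg F z w (sg F z w x) ≠ x).card := by
      simp only [card_filter]
      exact sum_comm
    have h3 : ∑ x, (univ.filter fun w => sg F z w (sg F z w x) ≠ x).card ≤ n * β := by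
      calc _ ≤ ∑ x : X, β := sum_le_sum fun x _ => hβ z x
        _ = n * β := by rw [sum_const, card_univ, hX, smul_eq_mul]
    by_contra hcon
    push Not at hcon
    have h4 : K * (n - 4 * β) ≤ n * β := h1.trans (h2 ▸ h3)
    obtain ⟨e, he⟩ : ∃ e, n = 12 * β + 1 + e := ⟨n - (12 * β + 1), by omega⟩
    have h5 : n - 4 * β = 8 * β + 1 + e := by omega
    rw [h5] at h4
    have h6 : n * (8 * β + 1 + e) ≤ 8 * (n * β) :=
      calc n * (8 * β + 1 + e) ≤ 8 * K * (8 * β + 1 + e) := Nat.mul_le_mul_right _ hcon
        _ = 8 * (K * (8 * β + 1 + e)) := by ring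
        _ ≤ _ := Nat.mul_le_mul_left _ h4
    nlinarith
  obtain ⟨h1, h2⟩ := all_adj F hF hX hZ hn hK
  refine ⟨h1, fun z w x => ?_⟩
  have := h2 z w
  exact congrArg (fun g : Equiv.Perm X => g x) this

end Loc

end Pool.Agent.U241.Fano
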