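import Mathlib
import Pool.Agent.U241.HomLat

set_option autoImplicit false

/-!
# Homogeneous latin squares with many intercalates
-/

namespace Pool.Agent.U241.Hom

open Finset Pool.Agent.U241.Fano

open scoped Classical

/-- latin squares: the rows and the columns have pairwise distinct entries -/
def IsLatin {n : ℕ} (L : Fin n → Fin n → Fin n) : Prop :=
  (∀ r, Function.Injective (L r)) ∧ ∀ c, Function.Injective fun r => L r c

/-- the intercalates through the cell `(r, c)`, each given by its opposite corner `(r', c')` -/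
noncomputable def intercalatesAt {n : ℕ} (L : Fin n → Fin n → Fin n) (r c : Fin n) :
    Finset (Fin n × Fin n) :=
  univ.filter fun p => p.1 ≠ r ∧ p.2 ≠ c ∧ L r c = L p.1 p.2 ∧ L r p.2 = L p.1 c

section

variable {n : ℕ} {L : Fin n → Fin n → Fin n}

/-- the row `r` as a bijection -/
noncomputable def row (hL : IsLatin L) (r : Fin n) : Fin n ≃ Fin n :=
  Equiv.ofBijective (L r) (Finite.injective_iff_bijective.1 (hL.1 r))

theorem row_apply (hL : IsLatin L) (r c : Fin n) : row hL r c = L r c := rfl

theorem row_unique (hL : IsLatin L) (c s : Fin n) : ∃! r, row hL r c = s := by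
  obtain ⟨r, hr⟩ := (Finite.injective_iff_bijective.1 (hL.2 c)).2 s
  exact ⟨r, hr, fun r' h' => hL.2 c (h'.trans hr.symm)⟩

theorem sg_row (hL : IsLatin L) (r r' c c' : Fin n) :
    sg (row hL) r r' c = c' ↔ L r' c' = L r c := by
  rw [sg_apply, Equiv.symm_apply_eq, eq_comm]
  rfl

/-- the number of the intercalates through a cell -/
theorem card_add (hL : IsLatin L) (r c : Fin n) :
    (intercalatesAt L r c).card +
      (univ.filter fun r' => sg (row hL) r r' (sg (row hL) r r' c) ≠ c).card = n - 1 := by
  have h1 : (intercalatesAt L r c).card =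
      ((univ.filter fun r' => sg (row hL) r r' (sg (row hL) r r' c) = c).erase r).card := by
    refine card_bij (fun p _ => p.1) ?_ ?_ ?_
    · rintro ⟨r', c'⟩ hp
      simp only [intercalatesAt, mem_filter, mem_univ, true_and] at hp
      obtain ⟨h1, h2, h3, h4⟩ := hp
      have e1 : sg (row hL) r r' c = c' := (sg_row hL _ _ _ _).2 h3.symm
      have e2 : sg (row hL) r r' c' = c := (sg_row hL _ _ _ _).2 h4.symm
      rw [mem_erase, mem_filter]
      refine ⟨h1, mem_univ _, ?_⟩
      rw [e1, e2]
    · rintro ⟨r', c'⟩ hp ⟨s', d'⟩ hq h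
      simp only [intercalatesAt, mem_filter, mem_univ, true_and] at hp hq
      simp only at h
      subst h
      have : c' = d' := hL.1 r' (hp.2.2.1.symm.trans hq.2.2.1)
      rw [this]
    · intro r' hr'
      rw [mem_erase, mem_filter] at hr'
      obtain ⟨h1, -, h2⟩ := hr'
      set c' := sg (row hL) r r' c with hc'
      have e1 : L r' c' = L r c := (sg_row hL _ _ _ _).1 hc'.symm
      have e2 : L r' c = L r c' := (sg_row hL _ _ _ _).1 h2
      refine ⟨(r', c'), ?_, rfl⟩
      simp only [intercalatesAt, mem_filter, mem_univ, true_and]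
      refine ⟨h1, ?_, e1.symm, e2.symm⟩
      intro h
      rw [h] at e1
      exact h1 (hL.2 c e1)
  have hr : r ∈ univ.filter fun r' => sg (row hL) r r' (sg (row hL) r r' c) = c := by
    rw [mem_filter]
    refine ⟨mem_univ _, ?_⟩
    rw [sg_self]
    rfl
  rw [h1, card_erase_of_mem hr]
  have h2 := card_filter_add_card_filter_not (s := (univ : Finset (Fin n)))
    (fun r' => sg (row hL) r r' (sg (row hL) r r' c) = c)
  rw [card_univ, Fintype.card_fin] at h2
  have h3 : 0 < (univ.filter fun r' => sg (row hL) r r' (sg (row hL) r r' c) = c).card :=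
    card_pos.2 ⟨r, hr⟩
  have h4 : (univ.filter fun r' => ¬ sg (row hL) r r' (sg (row hL) r r' c) = c)
    = (univ.filter fun r' => sg (row hL) r r' (sg (row hL) r r' c) ≠ c) := rfl
  rw [h4] at h2
  omega

/-- if every cell is in more than `11 n / 12 - 1` intercalates then it is in `n - 1` -/
theorem many (hL : IsLatin L) {h : ℕ} (hh : 12 * (n - 1 - h) < n)
    (hc : ∀ r c, h ≤ (intercalatesAt L r c).card) :
    (∃ m, n = 2 ^ m) ∧ ∀ r c, (intercalatesAt L r c).card = n - 1 := by
  have h1 : ∀ r c : Fin n, (univ.filter fun r' =>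
      sg (row hL) r r' (sg (row hL) r r' c) ≠ c).card ≤ n - 1 - h := by
    intro r c
    have := card_add hL r c
    have := hc r c
    omega
  obtain ⟨h2, h3⟩ := sup_gap (row hL) (row_unique hL) (n := n) (by simp) (by simp) hh
    (fun z x => by convert h1 z x)
  refine ⟨h2, fun r c => ?_⟩
  have h4 := card_add hL r c
  have h5 : (univ.filter fun r' => sg (row hL) r r' (sg (row hL) r r' c) ≠ c).card = 0 := by
    rw [card_eq_zero, filter_eq_empty_iff]
    intro r' _ h6
    exact h6 (h3 r r' c)
  omega

end

/-- the table of an elementary abelian group -/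
theorem exists_full (m : ℕ) : ∃ L : Fin (2 ^ m) → Fin (2 ^ m) → Fin (2 ^ m), IsLatin L ∧
    ∀ r c, (intercalatesAt L r c).card = 2 ^ m - 1 := by
  have hc : Fintype.card (Fin m → ZMod 2) = 2 ^ m := by simp [ZMod.card]
  let e : Fin (2 ^ m) ≃ (Fin m → ZMod 2) := (Fintype.equivFinOfCardEq hc).symm
  have h2 : ∀ x : Fin m → ZMod 2, x + x = 0 := fun x =>
    funext fun i => CharTwo.add_self_eq_zero (x i)
  let L : Fin (2 ^ m) → Fin (2 ^ m) → Fin (2 ^ m) := fun r c => e.symm (e r + e c)
  have hL : IsLatin L := by
    refine ⟨fun r c c' h => ?_, fun c r r' h => ?_⟩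
    · exact e.injective (add_left_cancel (e.symm.injective h))
    · exact e.injective (add_right_cancel (e.symm.injective h))
  refine ⟨L, hL, fun r c => ?_⟩
  have h4 := card_add hL r c
  have h5 : (univ.filter fun r' => sg (row hL) r r' (sg (row hL) r r' c) ≠ c).card = 0 := by
    rw [card_eq_zero, filter_eq_empty_iff]
    intro r' _ h6
    apply h6
    have e1 : sg (row hL) r r' c = e.symm (e r' + e r + e c) := by
      rw [sg_row]
      show e.symm (e r' + e (e.symm (e r' + e r + e c))) = e.symm (e r + e c)
      rw [Equiv.apply_symm_apply]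
      congr 1
      rw [← add_assoc, ← add_assoc, h2, zero_add]
    rw [e1, sg_row]
    show e.symm (e r' + e c) = e.symm (e r + e (e.symm (e r' + e r + e c)))
    rw [Equiv.apply_symm_apply]
    congr 1
    calc e r' + e c = (e r + e r) + (e r' + e c) := by rw [h2, zero_add]
      _ = _ := by abel
  omega

end Pool.Agent.U241.Hom
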