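import Mathlib
import Pool.Agent.U241.FanoPlane
import Pool.Agent.U241.HomLat

set_option autoImplicit false
set_option linter.unusedSectionVars false

/-!
# The Fano condition at three collinear points: a gap in the sup norm
-/

namespace Pool.Agent.U241.Fano

open Finset Configuration Configuration.ProjectivePlane

open scoped Classical

noncomputable section

section Count

variable {X Y Z : Type*} [Fintype X] [Fintype Y] [Fintype Z]

theorem lat_sup {n β : ℕ} (m : X → Y → Z) (h1 : ∀ x, Function.Injective (m x))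
    (h2 : ∀ y, Function.Injective fun x => m x y) (hX : Fintype.card X = n)
    (hY : Fintype.card Y = n) (hZ : Fintype.card Z = n) (hβ : 12 * β < n)
    (hb : ∀ x y, ((latBad m).filter fun t => t.1 = x ∧ t.2.2.1 = y).card ≤ β) :
    (∃ k, n = 2 ^ k) ∧ latBad m = ∅ := by
  have b1 : ∀ x, Function.Bijective (m x) := fun x =>
    (Fintype.bijective_iff_injective_and_card _).2 ⟨h1 x, by rw [hY, hZ]⟩
  have b2 : ∀ y, Function.Bijective fun x => m x y := fun y =>
    (Fintype.bijective_iff_injective_and_card _).2 ⟨h2 y, by rw [hX, hZ]⟩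
  choose f hf using fun (z : Z) (x : X) => (b1 x).2 z
  choose g hg using fun (z : Z) (y : Y) => (b2 y).2 z
  have hg' : ∀ z y, m (g z y) y = z := hg
  let F : Z → X ≃ Y := fun z =>
    { toFun := f z
      invFun := g z
      left_inv := fun x => h2 (f z x) (by show m (g z (f z x)) (f z x) = m x (f z x); rw [hg', hf])
      right_inv := fun y => h1 (g z y) (by rw [hf, hg']) }
  have hFm : ∀ z x, m x (F z x) = z := hf
  have hF' : ∀ z x y, F z x = y ↔ m x y = z := by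
    intro z x y
    constructor
    · rintro rfl; exact hFm z x
    · intro h; exact h1 x (by rw [hFm, h])
  have hF : ∀ x y, ∃! z, F z x = y := by
    intro x y
    exact ⟨m x y, (hF' _ _ _).2 rfl, fun z hz => ((hF' _ _ _).1 hz).symm⟩
  have key : ∀ z x, (univ.filter fun w => sg F z w (sg F z w x) ≠ x).card ≤ β := by
    intro z x
    refine le_trans ?_ (hb x (F z x))
    refine card_le_card_of_injOn (fun w => (x, sg F z w x, F z x, F z (sg F z w x))) ?_ ?_
    · intro w hw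
      rw [mem_coe, mem_filter] at hw
      have hx := hw.2
      rw [mem_coe, mem_filter, mem_latBad]
      set x' := sg F z w x with hx'
      have e1 : F w x' = F z x := by rw [hx', sg_apply]; simp
      refine ⟨⟨?_, ?_, ?_⟩, rfl, rfl⟩
      · show x ≠ x'
        intro h
        rw [← h] at hx
        exact hx (by rw [← hx', ← h])
      · show m x (F z x) = m x' (F z x')
        rw [hFm, hFm]
      · show m x (F z x') ≠ m x' (F z x)
        rw [← e1, hFm, Ne, ← hF']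
        intro h
        apply hx
        rw [sg_apply, ← h]; simp
    · intro w _ w' _ h
      simp only [Prod.mk.injEq] at h
      have h3 := h.2.1
      have e1 : F w (sg F z w x) = F z x := by rw [sg_apply]; simp
      have e2 : F w' (sg F z w' x) = F z x := by rw [sg_apply]; simp
      rw [← hFm w (sg F z w x), e1, h3, ← e2, hFm]
  obtain ⟨hk, hall⟩ := sup_gap F hF hX hZ hβ key
  refine ⟨hk, ?_⟩
  rw [eq_empty_iff_forall_notMem]
  rintro ⟨x, x', y, y'⟩ ht
  rw [mem_latBad] at ht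
  obtain ⟨hx, h3, h4⟩ := ht
  simp only at hx h3 h4
  have e0 : F (m x y) x = y := (hF' _ _ _).2 rfl
  have e0' : F (m x y) x' = y' := (hF' _ _ _).2 h3.symm
  have e1 : F (m x' y) x' = y := (hF' _ _ _).2 rfl
  have e2 : sg F (m x y) (m x' y) x = x' := by
    rw [sg_apply, e0, Equiv.symm_apply_eq, e1]
  have e3 := hall (m x y) (m x' y) x
  rw [e2, sg_apply, e0', Equiv.symm_apply_eq] at e3
  exact h4 ((hF' _ _ _).1 e3.symm)

end Count

section Plane

variable {P L : Type} [Membership P L] [ProjectivePlane P L] [Fintype P]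

theorem quad_symm {A B C D : P} (h : Quad L A B C D) : Quad L D C B A := by
  obtain ⟨h1, h2, h3, h4⟩ := h
  refine ⟨?_, ?_, ?_, ?_⟩
  · rintro ⟨l, a, b, c⟩; exact h4 ⟨l, c, b, a⟩
  · rintro ⟨l, a, b, c⟩; exact h3 ⟨l, c, b, a⟩
  · rintro ⟨l, a, b, c⟩; exact h2 ⟨l, c, b, a⟩
  · rintro ⟨l, a, b, c⟩; exact h1 ⟨l, c, b, a⟩

theorem col_line {p q r : P} {l : L} (h : Col L p q r) (hpq : p ≠ q) (hp : p ∈ l) (hq : q ∈ l) :
    r ∈ l := by
  obtain ⟨u, h1, h2, h3⟩ := h
  rw [eq_line hpq hp hq h1 h2]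
  exact h3

theorem off_line {A B C D p q : P} {l : L} (h : Quad L A B C D) (hp : p ∈ l) (hq : q ∈ l)
    (hpq : p ≠ q) (h1 : Col L p A B) (h2 : Col L p C D) (h3 : Col L q A C) (h4 : Col L q B D) :
    A ∉ l := by
  intro hA
  have hAB := (ncol_ne h.1).1
  have hAC := (ncol_ne h.1).2.1
  by_cases hpA : p = A
  · subst hpA
    have hC : C ∈ l := col_line h3 hpq.symm hq hp
    have hD : D ∈ l := col_line h2 hAC hp hC
    exact h.2.2.1 ⟨l, hp, hC, hD⟩
  · have hB : B ∈ l := col_line h1 hpA hp hA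
    by_cases hqA : q = A
    · subst hqA
      have hD : D ∈ l := col_line h4 hAB hq hB
      exact h.2.1 ⟨l, hq, hB, hD⟩
    · have hC : C ∈ l := col_line h3 hqA hq hA
      exact h.1 ⟨l, hA, hB, hC⟩

/-- the failures of the Fano condition at `p, q, r` with first vertex `A` -/
def failAt (L : Type) [Membership P L] (p q r A : P) : Finset (P × P × P × P) :=
  (fail L p q r).filter fun t => t.1 = A

theorem sup_local [Fintype L] {p q r : P} (hpq : p ≠ q) (hpr : p ≠ r) (hqr : q ≠ r)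
    (hc : Col L p q r) (hb : ∀ A : P, 12 * (failAt L p q r A).card < order P L) :
    fail L p q r = ∅ ∧ ∃ k, order P L = 2 ^ k := by
  obtain ⟨l, hp, hq, hr⟩ := hc
  choose pt hpt1 hpt2 using fun (x : Pen l p) (y : Pen l q) =>
    ex_point (P := P) (pen_ne hp hq hpq x y)
  have hoff : ∀ x y, pt x y ∉ l := fun x y => pen_off hp hq hpq x y (hpt1 x y) (hpt2 x y)
  choose m hm using fun (x : Pen l p) (y : Pen l q) => pen_ex (L := L) hr (hoff x y)
  have hn : 0 < order P L := lt_trans zero_lt_one (one_lt_order P L)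
  have hβ : 12 * ((order P L - 1) / 12) < order P L := by omega
  have hcell : ∀ x y, ((latBad m).filter fun t => t.1 = x ∧ t.2.2.1 = y).card
      ≤ (order P L - 1) / 12 := by
    intro x0 y0
    have h1 := hb (pt x0 y0)
    have h2 : ((latBad m).filter fun t => t.1 = x0 ∧ t.2.2.1 = y0).card
        ≤ (failAt L p q r (pt x0 y0)).card := by
      refine card_le_card_of_injOn (fun t => (pt t.1 t.2.2.1, pt t.1 t.2.2.2, pt t.2.1 t.2.2.1,
        pt t.2.1 t.2.2.2)) ?_ ?_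
      · rintro ⟨x, x', y, y'⟩ ht
        rw [mem_coe, mem_filter, mem_latBad] at ht
        obtain ⟨⟨hx, h3, h4⟩, h5, h6⟩ := ht
        simp only at hx h3 h4 h5 h6
        have hy : y ≠ y' := by
          rintro rfl
          exact h4 (by rw [h3])
        rw [mem_coe, failAt, mem_filter]
        refine ⟨?_, by simp only; rw [h5, h6]⟩
        rw [mem_fail]
        refine ⟨⟨?_, ?_, ?_, ?_⟩, ?_, ?_, ?_, ?_, ?_, ?_⟩ <;> simp only
        · exact grid_ncol hp hq hpq hx hy (hpt1 _ _) (hpt2 _ _) (hpt1 _ _) (hpt2 _ _) (hpt1 _ _)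
            (hpt2 _ _)
        · have := grid_ncol hp hq hpq hx hy.symm (hpt1 x y') (hpt2 x y') (hpt1 x y) (hpt2 x y)
            (hpt1 x' y') (hpt2 x' y')
          rintro ⟨u, h5, h6, h7⟩
          exact this ⟨u, h6, h5, h7⟩
        · have := grid_ncol hp hq hpq hx.symm hy (hpt1 x' y) (hpt2 x' y) (hpt1 x' y') (hpt2 x' y')
            (hpt1 x y) (hpt2 x y)
          rintro ⟨u, h5, h6, h7⟩
          exact this ⟨u, h6, h7, h5⟩
        · have := grid_ncol hp hq hpq hx.symm hy.symm (hpt1 x' y') (hpt2 x' y') (hpt1 x' y)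
            (hpt2 x' y) (hpt1 x y') (hpt2 x y')
          rintro ⟨u, h5, h6, h7⟩
          exact this ⟨u, h7, h6, h5⟩
        · exact ⟨x.1, x.2.1, hpt1 _ _, hpt1 _ _⟩
        · exact ⟨x'.1, x'.2.1, hpt1 _ _, hpt1 _ _⟩
        · exact ⟨y.1, y.2.1, hpt2 _ _, hpt2 _ _⟩
        · exact ⟨y'.1, y'.2.1, hpt2 _ _, hpt2 _ _⟩
        · exact ⟨(m x y).1, (m x y).2.1, hm x y, h3 ▸ hm x' y'⟩
        · rintro ⟨u, h5, h6, h7⟩
          apply h4
          have hu : u ≠ l := fun h => hoff x y' (h ▸ h6)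
          have e1 : m x y' = ⟨u, h5, hu⟩ := pen_eq hr (hoff x y') _ _ (hm x y') h6
          have e2 : m x' y = ⟨u, h5, hu⟩ := pen_eq hr (hoff x' y) _ _ (hm x' y) h7
          rw [e1, e2]
      · rintro ⟨x, x', y, y'⟩ - ⟨v, v', w, w'⟩ - h
        simp only [Prod.mk.injEq] at h
        obtain ⟨e1, e2, e3, e4⟩ := h
        have g1 : x = v := pen_eq hp (hoff x y) _ _ (hpt1 x y) (e1 ▸ hpt1 v w)
        have g2 : y = w := pen_eq hq (hoff x y) _ _ (hpt2 x y) (e1 ▸ hpt2 v w)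
        have g3 : x' = v' := pen_eq hp (hoff x' y') _ _ (hpt1 x' y') (e4 ▸ hpt1 v' w')
        have g4 : y' = w' := pen_eq hq (hoff x' y') _ _ (hpt2 x' y') (e4 ▸ hpt2 v' w')
        rw [g1, g2, g3, g4]
    omega
  obtain ⟨hk, he⟩ := lat_sup m (fun x y y' h => by
      have e : pt x y = pt x y' :=
        eq_point (pen_ne hp hr hpr x (m x y)) (hpt1 x y) (hpt1 x y') (hm x y) (h ▸ hm x y')
      exact pen_eq hq (hoff x y) y y' (hpt2 x y) (e ▸ hpt2 x y'))
    (fun y x x' h => by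
      have h' : m x y = m x' y := h
      have e : pt x y = pt x' y :=
        eq_point (pen_ne hq hr hqr y (m x y)) (hpt2 x y) (hpt2 x' y) (hm x y) (h' ▸ hm x' y)
      exact pen_eq hp (hoff x y) x x' (hpt1 x y) (e ▸ hpt1 x' y))
    (card_pen hp) (card_pen hq) (card_pen hr) hβ (fun x y => by convert hcell x y)
  refine ⟨?_, hk⟩
  rw [eq_empty_iff_forall_notMem]
  rintro ⟨A, B, C, D⟩ ht
  rw [mem_fail] at ht
  simp only at ht
  obtain ⟨hQ, t1, t2, t3, t4, t5, t6⟩ := ht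
  have hA : A ∉ l := off_line hQ hp hq hpq t1 t2 t3 t4
  have csw : ∀ {a b c : P}, Col L a b c → Col L a c b := by
    rintro a b c ⟨u, h1, h2, h3⟩
    exact ⟨u, h1, h3, h2⟩
  have hD : D ∉ l := off_line (quad_symm hQ) hp hq hpq (csw t2) (csw t1) (csw t4) (csw t3)
  obtain ⟨x, hx⟩ := pen_ex (L := L) hp hA
  obtain ⟨y, hy⟩ := pen_ex (L := L) hq hA
  obtain ⟨x', hx'⟩ := pen_ex (L := L) hp hD
  obtain ⟨y', hy'⟩ := pen_ex (L := L) hq hD
  have hpA : p ≠ A := fun h => hA (h ▸ hp)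
  have hpD : p ≠ D := fun h => hD (h ▸ hp)
  have hqA : q ≠ A := fun h => hA (h ▸ hq)
  have hqD : q ≠ D := fun h => hD (h ▸ hq)
  have hrA : r ≠ A := fun h => hA (h ▸ hr)
  have hBx : B ∈ x.1 := col_line t1 hpA x.2.1 hx
  have hCx' : C ∈ x'.1 := col_line (csw t2) hpD x'.2.1 hx'
  have hCy : C ∈ y.1 := col_line t3 hqA y.2.1 hy
  have hBy' : B ∈ y'.1 := col_line (csw t4) hqD y'.2.1 hy'
  have eA : A = pt x y := eq_point (pen_ne hp hq hpq x y) hx (hpt1 _ _) hy (hpt2 _ _)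
  have eB : B = pt x y' := eq_point (pen_ne hp hq hpq x y') hBx (hpt1 _ _) hBy' (hpt2 _ _)
  have eC : C = pt x' y := eq_point (pen_ne hp hq hpq x' y) hCx' (hpt1 _ _) hCy (hpt2 _ _)
  have eD : D = pt x' y' := eq_point (pen_ne hp hq hpq x' y') hx' (hpt1 _ _) hy' (hpt2 _ _)
  have hmem : (x, x', y, y') ∈ latBad m := by
    rw [mem_latBad]
    refine ⟨?_, ?_, ?_⟩ <;> simp only
    · intro h
      subst h
      exact hQ.1 ⟨x.1, hx, hBx, hCx'⟩
    · obtain ⟨u, h1, h2, h3⟩ := t5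
      have hu : u ≠ l := fun h => hA (h ▸ h2)
      have e1 : m x y = ⟨u, h1, hu⟩ := pen_eq hr (hoff x y) _ _ (hm x y) (eA ▸ h2)
      have e2 : m x' y' = ⟨u, h1, hu⟩ := pen_eq hr (hoff x' y') _ _ (hm x' y') (eD ▸ h3)
      rw [e1, e2]
    · intro h
      apply t6
      refine ⟨(m x y').1, (m x y').2.1, ?_, ?_⟩
      · rw [eB]; exact hm x y'
      · rw [eC, h]; exact hm x' y
  rw [he] at hmem
  exact absurd hmem (notMem_empty _)

/-- if the Fano condition holds at all triples of collinear points then all quadrangles have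
collinear diagonal points -/
theorem nonFano_empty (h : ∀ p q r : P, p ≠ q → p ≠ r → q ≠ r → Col L p q r → fail L p q r = ∅) :
    nonFano P L = ∅ := by
  rw [eq_empty_iff_forall_notMem]
  rintro ⟨A, B, C, D⟩ ht
  rw [nonFano, mem_filter] at ht
  simp only at ht
  obtain ⟨-, hQ, hno⟩ := ht
  have hAB := (ncol_ne hQ.1).1
  have hAC := (ncol_ne hQ.1).2.1
  have hBC := (ncol_ne hQ.1).2.2
  have hAD := (ncol_ne hQ.2.1).2.1
  have hBD := (ncol_ne hQ.2.1).2.2
  have hCD := (ncol_ne hQ.2.2.1).2.2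
  obtain ⟨ab, a1, a2⟩ := ex_line (L := L) hAB
  obtain ⟨cd, c1, c2⟩ := ex_line (L := L) hCD
  obtain ⟨ac, b1, b2⟩ := ex_line (L := L) hAC
  obtain ⟨bd, d1, d2⟩ := ex_line (L := L) hBD
  obtain ⟨ad, e1, e2⟩ := ex_line (L := L) hAD
  obtain ⟨bc, f1, f2⟩ := ex_line (L := L) hBC
  have n1 : ab ≠ cd := fun h => hQ.1 ⟨ab, a1, a2, h ▸ c1⟩
  have n2 : ac ≠ bd := fun h => hQ.1 ⟨ac, b1, h ▸ d1, b2⟩
  obtain ⟨p, p1, p2⟩ := ex_point (P := P) n1
  obtain ⟨q, q1, q2⟩ := ex_point (P := P) n2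
  have n3 : ab ≠ ac := fun h => hQ.1 ⟨ab, a1, a2, h ▸ b2⟩
  have n4 : ab ≠ bd := fun h => hQ.2.1 ⟨ab, a1, a2, h ▸ d2⟩
  have n5 : cd ≠ ac := fun h => hQ.2.2.1 ⟨cd, h ▸ b1, c1, c2⟩
  have n6 : cd ≠ bd := fun h => hQ.2.2.2 ⟨cd, h ▸ d1, c1, c2⟩
  have hpq : p ≠ q := by
    intro h
    subst h
    have g1 : p = A := eq_point n3 p1 a1 q1 b1
    have g2 : p = B := eq_point n4 p1 a2 q2 d1
    exact hAB (g1.symm.trans g2)
  obtain ⟨l, l1, l2⟩ := ex_line (L := L) hpq
  have n7 : l ≠ ad := by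
    intro h
    subst h
    by_cases g : p = A
    · subst g
      -- then `p = A` is on `cd`
      exact hQ.2.2.1 ⟨cd, p2, c1, c2⟩
    · have : ab = l := eq_line g p1 a1 l1 e1
      subst this
      exact hQ.2.1 ⟨ab, a1, a2, e2⟩
  obtain ⟨r, r1, r2⟩ := ex_point (P := P) n7
  have hpr : p ≠ r := by
    intro h
    subst h
    by_cases g : p = A
    · subst g
      exact hQ.2.2.1 ⟨cd, p2, c1, c2⟩
    · have : ab = ad := eq_line g p1 a1 r2 e1
      subst this
      exact hQ.2.1 ⟨ab, a1, a2, e2⟩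
  have hqr : q ≠ r := by
    intro h
    subst h
    by_cases g : q = A
    · subst g
      exact hQ.2.1 ⟨bd, q2, d1, d2⟩
    · have : ac = ad := eq_line g q1 b1 r2 e1
      subst this
      exact hQ.2.2.1 ⟨ac, b1, b2, e2⟩
  have hf := h p q r hpq hpr hqr ⟨l, l1, l2, r1⟩
  have hmem : (A, B, C, D) ∈ fail L p q r := by
    rw [mem_fail]
    refine ⟨hQ, ⟨ab, p1, a1, a2⟩, ⟨cd, p2, c1, c2⟩, ⟨ac, q1, b1, b2⟩, ⟨bd, q2, d1, d2⟩,
      ⟨ad, r2, e1, e2⟩, ?_⟩
    intro hr
    exact hno ⟨p, q, r, ⟨l, l1, l2, r1⟩, ⟨ab, p1, a1, a2⟩, ⟨cd, p2, c1, c2⟩, ⟨ac, q1, b1, b2⟩,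
      ⟨bd, q2, d1, d2⟩, ⟨ad, r2, e1, e2⟩, hr⟩
  rw [hf] at hmem
  exact absurd hmem (notMem_empty _)

end Plane

end

end Pool.Agent.U241.Fano
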